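import Pool.Agent.Results.MP_10b896_lc.NotUniversal

/-!
# Countable Borel equivalence relations isomorphic to their continuum multiple

A relation `E` with `ℝE ≅ E` and a relation `F` with a class-bijective Borel homomorphism to `E`
that does not embed invariantly into `E`.
-/

set_option autoImplicit false

namespace Pool.Agent.Y136.ClassBij

open Pool.Agent.H25R3.RE Pool.Agent.Results.MP_10b896_lc.NotUniversal MeasureTheory Set

/-- `q` is a class-bijective Borel homomorphism from `F` to `E`: it is Borel and maps every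
`F`-class bijectively onto an `E`-class. -/
def ClassBijectiveHom {Z X : Type} [MeasurableSpace Z] [MeasurableSpace X] (F : Z → Z → Prop)
    (E : X → X → Prop) (q : Z → X) : Prop :=
  Measurable q ∧ ∀ z, Set.BijOn q {z' | F z z'} {x | E (q z) x}

/-- Being structurable passes to relations with a class-bijective homomorphism. -/
lemma structurable_of_cb {Z X : Type} [MeasurableSpace Z] [MeasurableSpace X]
    {F : Z → Z → Prop} {E : X → X → Prop} (hF : IsCBER F) {q : Z → X}
    (hq : ClassBijectiveHom F E q) {L : Lang} (σ : Form L 0) (hE : Structurable E σ) :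
    Structurable F σ := by
  refine structurable_pullback F E hF σ hE q hq.1 ?_ ?_ ?_
  · intro z z' h
    exact (hq.2 z).mapsTo h
  · intro z z' h heq
    exact (hq.2 z).injOn (hF.equivalence.refl z) h heq
  · intro z x h
    obtain ⟨z', h1, h2⟩ := (hq.2 z).surjOn h
    exact ⟨z', h1, h2⟩

lemma invEmb_trans {X Y Z : Type} [MeasurableSpace X] [MeasurableSpace Y] [MeasurableSpace Z]
    {E : X → X → Prop} {F : Y → Y → Prop} {H : Z → Z → Prop} (h1 : InvEmb E F)
    (h2 : InvEmb F H) : InvEmb E H := by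
  obtain ⟨f, f1, f2, f3, f4⟩ := h1
  obtain ⟨g, g1, g2, g3, g4⟩ := h2
  refine ⟨fun x => g (f x), g1.comp f1, g2.comp f2, fun x x' => (f3 x x').trans (g3 _ _), ?_⟩
  intro x z hz
  obtain ⟨y, rfl⟩ := g4 (f x) z hz
  obtain ⟨x', rfl⟩ := f4 x y ((g3 _ _).2 hz)
  exact ⟨x', rfl⟩

lemma invEmb_of_iso_symm {X Y : Type} [MeasurableSpace X] [StandardBorelSpace X]
    [MeasurableSpace Y] [StandardBorelSpace Y] {E : X → X → Prop} {F : Y → Y → Prop}
    (h : BorelIso E F) : InvEmb F E := by
  obtain ⟨f, f1, f2, f3⟩ := h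
  have hemb : MeasurableEmbedding f := f1.measurableEmbedding f2.1
  let g : Y → X := (Equiv.ofBijective f f2).symm
  have hg : ∀ y, f (g y) = y := fun y => (Equiv.ofBijective f f2).apply_symm_apply y
  refine ⟨g, ?_, (Equiv.ofBijective f f2).symm.injective, fun y y' => ?_, fun y x _ => ?_⟩
  · rw [← hemb.measurable_comp_iff]
    have : f ∘ g = id := funext hg
    rw [this]; exact measurable_id
  · rw [f3, hg, hg]
  · exact ⟨f x, f2.1 (hg (f x))⟩

/-- If a relation with a class-bijective homomorphism to `E` does not embed invariantly in `E`,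
then `E` is not universally structurable. -/
lemma not_universal_of_cb {X Z : Type} [MeasurableSpace X] [StandardBorelSpace X]
    [MeasurableSpace Z] [StandardBorelSpace Z] {E : X → X → Prop} {F : Z → Z → Prop}
    (hE : IsCBER E) (hF : IsCBER F) {q : Z → X} (hq : ClassBijectiveHom F E q)
    (hno : ¬ InvEmb F E) : ¬ UniversallyStructurable E := by
  rintro ⟨L, σ, Zs, mZs, hZs, Fs, ⟨hcber, hstr, huniv⟩, hiso⟩
  have hEs : Structurable E σ := by
    obtain ⟨f, f1, f2, f3⟩ := hiso
    refine structurable_pullback E Fs hE σ hstr f f1 (fun x x' h => (f3 x x').1 h)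
      (fun x x' _ h => f2.1 h) fun x y h => ?_
    obtain ⟨x', rfl⟩ := f2.2 y
    exact ⟨x', (f3 _ _).2 h, rfl⟩
  exact hno (invEmb_trans (huniv Z F hF (structurable_of_cb hF hq σ hEs)) (invEmb_of_iso_symm hiso))

lemma not_invEmb : ¬ InvEmb RZ0 (timesR RX) := by
  rintro ⟨f, f1, f2, f3, f4⟩
  refine core f f1 f2 (fun z z' => f3 z z') fun z y h1 h2 => ?_
  exact f4 z y ⟨h1, h2⟩

lemma cb : ClassBijectiveHom RZ0 (timesR RX) (fun z => (pr z.1, (0 : ℝ))) := by
  refine ⟨(measurable_pr.comp measurable_subtype_coe).prodMk measurable_const, fun z => ⟨?_, ?_, ?_⟩⟩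
  · intro z' h
    exact ⟨RZ_pr _ _ h, rfl⟩
  · intro z1 h1 z2 h2 heq
    have h3 := congrArg Prod.fst heq
    have h4 : RZ z1.1 z2.1 := RZ_equiv.trans (RZ_equiv.symm h1) h2
    exact Subtype.ext (RZ_inj z1.1 z2.1 z1.2 h4 h3.symm).symm
  · rintro ⟨x, r⟩ ⟨h1, h2⟩
    obtain ⟨z', hz', hpz'⟩ := RZ_lift z.1 x h1
    refine ⟨⟨z', Z0_inv _ _ z.2 hz'⟩, hz', ?_⟩
    exact Prod.ext hpz' h2

/-- The main theorem. -/
theorem main_cb : ∃ (X Z : Type) (_ : MeasurableSpace X) (_ : StandardBorelSpace X)
    (_ : MeasurableSpace Z) (_ : StandardBorelSpace Z) (E : X → X → Prop) (F : Z → Z → Prop)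
    (q : Z → X), IsCBER E ∧ IsCBER F ∧ BorelIso (timesR E) E ∧ ClassBijectiveHom F E q ∧
      (∀ (L : Lang) (σ : Form L 0), Structurable E σ → Structurable F σ) ∧ ¬ InvEmb F E ∧
      ¬ UniversallyStructurable E :=
  ⟨XX × ℝ, Z0, inferInstance, inferInstance, inferInstance, inferInstance, timesR RX, RZ0, _,
    cber_timesR RX cber_RX, cber_RZ0, iso_timesR RX, cb,
    fun _ σ h => structurable_of_cb cber_RZ0 cb σ h, not_invEmb,
    not_universal_of_cb (cber_timesR RX cber_RX) cber_RZ0 cb not_invEmb⟩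

end Pool.Agent.Y136.ClassBij
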